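import Pool.Agent.Helper92.MC.Gad
import Pool.Agent.CHK.Bfm

/-!
# Matching Cut: the reduction is given by bounded formulas
-/

set_option autoImplicit false

open SimpleGraph

namespace Pool.Agent.Helper92.MC

open Vert Pool.Agent.CHK

/-- the edges in terms of numbers -/
def EdN (n m : ℕ) (bit : ℕ → Prop) (a b : ℕ) : Prop :=
  (∃ X, X < 2 * n + 2 ∧ ∃ s, s < 16 * n + 4 * m + 7 ∧
    ((a = X * (16 * n + 4 * m + 8) + s ∧ b = X * (16 * n + 4 * m + 8) + (s + 1)) ∨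
     (a = (2 * n + 2) * (16 * n + 4 * m + 8) + (X * (16 * n + 4 * m + 7) + s) ∧
       (b = X * (16 * n + 4 * m + 8) + s ∨ b = X * (16 * n + 4 * m + 8) + (s + 1))))) ∨
  (∃ j, j < 4 * n + 2 + m ∧
    ((∃ i, i < 3 ∧ ∃ i', i' < 3 ∧
      a = (2 * n + 2) * (16 * n + 4 * m + 8) + ((2 * n + 2) * (16 * n + 4 * m + 7) + (3 * j + i)) ∧
      b = (2 * n + 2) * (16 * n + 4 * m + 8) + ((2 * n + 2) * (16 * n + 4 * m + 7) + (3 * j + i'))) ∨
    (∃ r, r < 4 ∧ ∃ i, i < 2 ∧ ∃ Y, Y < 2 * n + 2 ∧ (r = 2 * i ∨ r = 2 * i + 1) ∧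
      a = (2 * n + 2) * (16 * n + 4 * m + 8) + ((2 * n + 2) * (16 * n + 4 * m + 7) + (3 * j + i)) ∧
      b = Y * (16 * n + 4 * m + 8) + (4 * j + r) ∧ EntN n m bit j r Y)))

theorem ed_iff {n : ℕ} (φ : Formula n) (a b : ℕ) :
    (∃ u v, code u = a ∧ code v = b ∧ edgeRel (gadgets φ) u v) ↔
      EdN n φ.length (fun x => (encCNF ⟨n, φ⟩)[x]? = some true) a b := by
  have hk := gadgets_length φ
  have e1 : 4 * (gadgets φ).length = 16 * n + 4 * φ.length + 8 := by omega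
  have e3 : ∀ x : ℕ, x + 8 - 1 = x + 7 := fun x => rfl
  unfold EdN
  constructor
  · rintro ⟨u, v, rfl, rfl, h⟩
    rcases u with ⟨X, s⟩ | ⟨X, s⟩ | ⟨j, i⟩ <;> rcases v with ⟨Y, t⟩ | ⟨Y, t⟩ | ⟨j', i'⟩
    · obtain ⟨rfl, h⟩ := h
      have := t.isLt
      exact Or.inl ⟨blobNum X, blobNum_lt X, s.val, by omega, Or.inl ⟨by simp only [code, e1], by
        simp only [code, e1, h]⟩⟩
    · exact absurd h (by simp [edgeRel])
    · exact absurd h (by simp [edgeRel])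
    · obtain ⟨rfl, h⟩ := h
      have := s.isLt
      refine Or.inl ⟨blobNum X, blobNum_lt X, s.val, by omega, Or.inr ⟨by
        simp only [code, e1, e3], ?_⟩⟩
      rcases h with h | h
      · left; simp only [code, e1, h]
      · right; simp only [code, e1, h]
    · exact absurd h (by simp [edgeRel])
    · exact absurd h (by simp [edgeRel])
    · obtain ⟨r, h1, h2, h3⟩ := h
      have := j.isLt
      have := r.isLt
      refine Or.inr ⟨j.val, by omega, Or.inr ⟨r.val, r.isLt, i.val, by omega, blobNum Y,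
        blobNum_lt Y, by omega, ?_, ?_, ?_⟩⟩
      · simp only [code, e1, e3]
      · simp only [code, e1, h1]
      · exact (ent_iff φ j.val j.isLt r Y).1 h3
    · exact absurd h (by simp [edgeRel])
    · have h' : j = j' := h
      subst h'
      have := j.isLt
      refine Or.inr ⟨j.val, by omega, Or.inl ⟨i.val, i.isLt, i'.val, i'.isLt, ?_, ?_⟩⟩ <;>
      simp only [code, e1, e3]
  · rintro (⟨x, hx, s, hs, ⟨rfl, rfl⟩ | ⟨rfl, hb⟩⟩ | ⟨j, hj, ⟨i, hi, i', hi', rfl, rfl⟩ |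
      ⟨r, hr, i, hi, y, hy, h1, rfl, rfl, h2⟩⟩)
    · obtain ⟨X, rfl⟩ := blobNum_surj hx
      refine ⟨main X ⟨s, by omega⟩, main X ⟨s + 1, by omega⟩, ?_, ?_, ⟨rfl, rfl⟩⟩ <;>
      simp only [code, e1]
    · obtain ⟨X, rfl⟩ := blobNum_surj hx
      rcases hb with rfl | rfl
      · refine ⟨apex X ⟨s, by omega⟩, main X ⟨s, by omega⟩, ?_, ?_, ⟨rfl, Or.inl rfl⟩⟩ <;>
        simp only [code, e1, e3]
      · refine ⟨apex X ⟨s, by omega⟩, main X ⟨s + 1, by omega⟩, ?_, ?_, ⟨rfl, Or.inr rfl⟩⟩ <;>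
        simp only [code, e1, e3]
    · refine ⟨gad ⟨j, by omega⟩ ⟨i, hi⟩, gad ⟨j, by omega⟩ ⟨i', hi'⟩, ?_, ?_, rfl⟩ <;>
      simp only [code, e1, e3]
    · obtain ⟨Y, rfl⟩ := blobNum_surj hy
      refine ⟨gad ⟨j, by omega⟩ ⟨i, by omega⟩, main Y ⟨4 * j + r, by omega⟩, ?_, ?_,
        ⟨⟨r, hr⟩, rfl, ?_, ?_⟩⟩
      · simp only [code, e1, e3]
      · simp only [code, e1]
      · simp only
        omega
      · exact (ent_iff φ j (by omega) ⟨r, hr⟩ Y).2 h2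

theorem redG_bit (φ : CNF) (i : ℕ) :
    (∃ a b : Fin (redG φ).1, i = a.val * (redG φ).1 + b.val ∧ (redG φ).2.Adj a b) ↔
    ∃ a, a < NN φ.1 φ.2.length ∧ ∃ b, b < NN φ.1 φ.2.length ∧
      i = a * NN φ.1 φ.2.length + b ∧ a ≠ b ∧
      (EdN φ.1 φ.2.length (fun x => (encCNF φ)[x]? = some true) a b ∨
       EdN φ.1 φ.2.length (fun x => (encCNF φ)[x]? = some true) b a) := by
  have hN : (redG φ).1 = NN φ.1 φ.2.length := rfl
  constructor
  · rintro ⟨a, b, h1, h2⟩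
    refine ⟨a.val, a.isLt, b.val, b.isLt, h1, fun h => ?_, ?_⟩
    · rw [Fin.ext h] at h2
      exact (redG φ).2.loopless.irrefl _ h2
    · rw [redG_adj] at h2
      obtain ⟨u, v, h3, h4, h5⟩ := h2
      rw [satGraph, gadgetGraph, SimpleGraph.fromRel_adj] at h5
      rcases h5.2 with h6 | h6
      · exact Or.inl ((ed_iff φ.2 _ _).1 ⟨u, v, h3, h4, h6⟩)
      · exact Or.inr ((ed_iff φ.2 _ _).1 ⟨v, u, h4, h3, h6⟩)
  · rintro ⟨a, ha, b, hb, h1, h2, h3⟩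
    refine ⟨⟨a, ha⟩, ⟨b, hb⟩, h1, ?_⟩
    rw [redG_adj]
    rcases h3 with h3 | h3
    · obtain ⟨u, v, h4, h5, h6⟩ := (ed_iff φ.2 _ _).2 h3
      refine ⟨u, v, h4, h5, ?_⟩
      rw [satGraph, gadgetGraph, SimpleGraph.fromRel_adj]
      exact ⟨fun h => h2 (by rw [← h4, ← h5, h]), Or.inl h6⟩
    · obtain ⟨u, v, h4, h5, h6⟩ := (ed_iff φ.2 _ _).2 h3
      refine ⟨v, u, h5, h4, ?_⟩
      rw [satGraph, gadgetGraph, SimpleGraph.fromRel_adj]
      exact ⟨fun h => h2 (by rw [← h4, ← h5, h]), Or.inr h6⟩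

end Pool.Agent.Helper92.MC
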