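import Pool.Agent.Helper92.MC.Enc

/-!
# Matching Cut: the graph of a formula on the vertices `0, ..., N - 1`
-/

set_option autoImplicit false

open SimpleGraph

namespace Pool.Agent.Helper92.MC

open Vert

/-- number of a blob -/
def blobNum {n : ℕ} : Blob n → ℕ
  | Sum.inl true => 0
  | Sum.inl false => 1
  | Sum.inr l => 2 + litNum l

theorem blobNum_lt {n : ℕ} (X : Blob n) : blobNum X < 2 * n + 2 := by
  rcases X with b | l
  · rcases b <;> simp [blobNum]
  · have := litNum_lt l
    simp only [blobNum]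
    omega

theorem blobNum_inj {n : ℕ} {X Y : Blob n} (h : blobNum X = blobNum Y) : X = Y := by
  rcases X with b | l <;> rcases Y with b' | l'
  · rcases b <;> rcases b' <;> simp [blobNum] at h ⊢
  · rcases b <;> simp [blobNum] at h <;> omega
  · rcases b' <;> simp [blobNum] at h <;> omega
  · simp only [blobNum, Nat.add_left_cancel_iff] at h
    rw [litNum_inj h]

theorem blobNum_surj {n : ℕ} {x : ℕ} (h : x < 2 * n + 2) : ∃ X : Blob n, blobNum X = x := by
  have hi : Function.Injective (fun X : Blob n => (⟨blobNum X, blobNum_lt X⟩ : Fin (2 * n + 2))) :=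
    fun X Y h => blobNum_inj (by simpa using h)
  have hb := (Fintype.bijective_iff_injective_and_card _).2 ⟨hi, by
    simp only [Fintype.card_sum, Fintype.card_bool, Fintype.card_prod, Fintype.card_fin]; ring⟩
  obtain ⟨X, hX⟩ := hb.2 ⟨x, h⟩
  exact ⟨X, by simpa using congrArg Fin.val hX⟩

/-- the number of gadgets -/
def kk (n m : ℕ) : ℕ := 4 * n + 2 + m

/-- the number of vertices -/
def NN (n m : ℕ) : ℕ := (2 * n + 2) * (4 * kk n m) + (2 * n + 2) * (4 * kk n m - 1) + 3 * kk n m

/-- number of a vertex -/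
def code {n k : ℕ} : Vert (Blob n) k → ℕ
  | main X s => blobNum X * (4 * k) + s.val
  | apex X s => (2 * n + 2) * (4 * k) + (blobNum X * (4 * k - 1) + s.val)
  | gad j i => (2 * n + 2) * (4 * k) + ((2 * n + 2) * (4 * k - 1) + (3 * j.val + i.val))

theorem mul_add_lt {a b c d : ℕ} (h : a < c) (h' : b < d) : a * d + b < c * d := by
  calc a * d + b < a * d + d := by omega
    _ = (a + 1) * d := by ring
    _ ≤ c * d := Nat.mul_le_mul_right _ h

theorem mul_add_inj {a b a' b' d : ℕ} (h : b < d) (h' : b' < d) (e : a * d + b = a' * d + b') :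
    a = a' ∧ b = b' := by
  have hd : 0 < d := by omega
  have h1 : a = a' := by
    have := congrArg (· / d) e
    simp only [Nat.mul_comm _ d, Nat.mul_add_div hd, Nat.div_eq_of_lt h,
      Nat.div_eq_of_lt h', Nat.add_zero] at this
    exact this
  subst h1
  exact ⟨rfl, by omega⟩

theorem code_lt {n k m : ℕ} (hk : k = kk n m) (v : Vert (Blob n) k) : code v < NN n m := by
  unfold NN
  rw [← hk]
  rcases v with ⟨X, s⟩ | ⟨X, s⟩ | ⟨j, i⟩
  · have := mul_add_lt (blobNum_lt X) s.isLt
    simp only [code]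
    omega
  · have := mul_add_lt (blobNum_lt X) s.isLt
    simp only [code]
    omega
  · have := j.isLt
    have := i.isLt
    simp only [code]
    omega

theorem code_inj {n k : ℕ} {u v : Vert (Blob n) k} (h : code u = code v) : u = v := by
  rcases u with ⟨X, s⟩ | ⟨X, s⟩ | ⟨j, i⟩ <;> rcases v with ⟨Y, t⟩ | ⟨Y, t⟩ | ⟨j', i'⟩ <;>
    simp only [code] at h
  · obtain ⟨h1, h2⟩ := mul_add_inj s.isLt t.isLt h
    rw [blobNum_inj h1, Fin.ext h2]
  · have := mul_add_lt (blobNum_lt X) s.isLt
    omega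
  · have := mul_add_lt (blobNum_lt X) s.isLt
    omega
  · have := mul_add_lt (blobNum_lt Y) t.isLt
    omega
  · obtain ⟨h1, h2⟩ := mul_add_inj s.isLt t.isLt (Nat.add_left_cancel h)
    rw [blobNum_inj h1, Fin.ext h2]
  · have := mul_add_lt (blobNum_lt X) s.isLt
    omega
  · have := mul_add_lt (blobNum_lt Y) t.isLt
    omega
  · have := mul_add_lt (blobNum_lt Y) t.isLt
    omega
  · have h1 := i.isLt
    have h2 := i'.isLt
    have h3 : j.val = j'.val := by omega
    have h4 : i.val = i'.val := by omega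
    rw [Fin.ext h3, Fin.ext h4]

/-- the vertices of the graph of a formula are numbered -/
noncomputable def codeEquiv {n k m : ℕ} (hk : k = kk n m) : Vert (Blob n) k ≃ Fin (NN n m) :=
  haveI : Fintype (Vert (Blob n) k) := Fintype.ofEquiv _ (vertEquiv (Blob n) k).symm
  Equiv.ofBijective (fun v => ⟨code v, code_lt hk v⟩)
    ((Fintype.bijective_iff_injective_and_card _).2
      ⟨fun u v h => code_inj (by simpa using h), by
        rw [Fintype.card_congr (vertEquiv (Blob n) k)]
        simp only [Fintype.card_sum, Fintype.card_prod, Fintype.card_fin, Fintype.card_bool]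
        unfold NN
        rw [← hk]
        ring⟩)

theorem codeEquiv_val {n k m : ℕ} (hk : k = kk n m) (v : Vert (Blob n) k) :
    (codeEquiv hk v).val = code v := rfl

/-- The graph of a formula, on the vertices `0, ..., N - 1`. -/
noncomputable def redG (φ : CNF) : FinGraph :=
  ⟨NN φ.1 φ.2.length, (satGraph φ.2).comap (codeEquiv (gadgets_length φ.2)).symm⟩

theorem redG_adj (φ : CNF) (a b : Fin (redG φ).1) : (redG φ).2.Adj a b ↔
    ∃ u v, code u = a.val ∧ code v = b.val ∧ (satGraph φ.2).Adj u v := by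
  unfold redG
  simp only [SimpleGraph.comap_adj]
  constructor
  · intro h
    refine ⟨_, _, ?_, ?_, h⟩
    · rw [← codeEquiv_val (gadgets_length φ.2), Equiv.apply_symm_apply]
    · rw [← codeEquiv_val (gadgets_length φ.2), Equiv.apply_symm_apply]
  · rintro ⟨u, v, h1, h2, h⟩
    rw [← codeEquiv_val (gadgets_length φ.2)] at h1 h2
    rw [← Fin.ext h1, ← Fin.ext h2, Equiv.symm_apply_apply, Equiv.symm_apply_apply]
    exact h

/-! ### Transport along isomorphisms -/

theorem free_comap {V W : Type} (e : W ≃ V) (G : SimpleGraph V) (h : S2222.Free G) :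
    S2222.Free (G.comap e) := by
  rintro ⟨f⟩
  exact h ⟨⟨⟨fun x => e (f.toHom x), fun {a b} hab => f.toHom.map_adj hab⟩, fun a b hab =>
    f.injective' (e.injective hab)⟩⟩

theorem cut_comap {V W : Type} (e : W ≃ V) (G : SimpleGraph V) :
    HasMatchingCut (G.comap e) ↔ HasMatchingCut G := by
  constructor
  · rintro ⟨A, ⟨a, ha⟩, ⟨b, hb⟩, h⟩
    refine ⟨e.symm ⁻¹' A, ⟨e a, by simpa using ha⟩, ⟨e b, by simpa using hb⟩, ?_⟩
    intro v w₁ w₂ h1 h2 h3 h4
    have := h (e.symm v) (e.symm w₁) (e.symm w₂) (by simpa using h1) (by simpa using h2) h3 h4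
    exact e.symm.injective this
  · rintro ⟨A, ⟨a, ha⟩, ⟨b, hb⟩, h⟩
    refine ⟨e ⁻¹' A, ⟨e.symm a, by simpa using ha⟩, ⟨e.symm b, by simpa using hb⟩, ?_⟩
    intro v w₁ w₂ h1 h2 h3 h4
    exact e.injective (h (e v) (e w₁) (e w₂) h1 h2 h3 h4)

theorem deg_comap {V W : Type} (e : W ≃ V) (G : SimpleGraph V) (d : ℕ)
    (h : ∀ v, (G.neighborSet v).Finite ∧ (G.neighborSet v).ncard ≤ d) (w : W) :
    ((G.comap e).neighborSet w).ncard ≤ d := by
  have h1 : e '' ((G.comap e).neighborSet w) ⊆ G.neighborSet (e w) := by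
    rintro _ ⟨x, hx, rfl⟩
    exact hx
  rw [← Set.ncard_image_of_injective _ e.injective]
  exact (Set.ncard_le_ncard h1 (h _).1).trans (h _).2

theorem redG_spec (φ : CNF) : S2222.Free (redG φ).2 ∧
    (∀ v, ((redG φ).2.neighborSet v).ncard ≤ 5) ∧
    (HasMatchingCut (redG φ).2 ↔ Satisfiable φ.2) := by
  obtain ⟨h1, h2, -, -, h3⟩ := satGraph_main φ.1 φ.2
  exact ⟨free_comap _ _ h1, deg_comap _ _ _ h2, (cut_comap _ _).trans h3⟩

end Pool.Agent.Helper92.MC
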