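import Pool.Agent.Helper92.MC.Base

/-!
# Matching Cut: encodings of formulas and graphs as words
-/

set_option autoImplicit false

open SimpleGraph

namespace Pool.Agent.Helper92.MC

/-- 3-CNF formulas: a number of variables and a list of clauses. -/
abbrev CNF : Type := Σ n : ℕ, Formula n

/-- Finite graphs: a number `N` of vertices and a graph on the vertices `0, ..., N - 1`. -/
abbrev FinGraph : Type := Σ N : ℕ, SimpleGraph (Fin N)

/-- The number of a literal: `2 v` for the variable number `v`, `2 v + 1` for its negation. -/
def litNum {n : ℕ} (l : Lit n) : ℕ := 2 * l.1.val + (if l.2 then 0 else 1)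

/-- Encoding of formulas: the number `n` of variables in unary, a letter `false`, and for every
literal of every clause a row of `2 n` letters, in which exactly the letter with the number of the
literal is `true`. -/
def encCNF (φ : CNF) : List Bool :=
  List.replicate φ.1 true ++ false ::
    φ.2.flatMap fun c => (List.finRange 3).flatMap fun p =>
      (List.range (2 * φ.1)).map fun i => decide (i = litNum (c p))

open Classical in
/-- Encoding of graphs: the adjacency matrix, row by row. -/
noncomputable def encGraph (G : FinGraph) : List Bool :=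
  (List.range (G.1 * G.1)).map fun i =>
    decide (∃ a b : Fin G.1, i = a.val * G.1 + b.val ∧ G.2.Adj a b)

theorem litNum_lt {n : ℕ} (l : Lit n) : litNum l < 2 * n := by
  have := l.1.isLt
  unfold litNum
  split_ifs <;> omega

theorem litNum_inj {n : ℕ} {l l' : Lit n} (h : litNum l = litNum l') : l = l' := by
  obtain ⟨v, s⟩ := l
  obtain ⟨v', s'⟩ := l'
  unfold litNum at h
  simp only at h
  have h1 : v.val = v'.val := by split_ifs at h <;> omega
  have h2 : s = s' := by
    rcases s <;> rcases s' <;> simp at h ⊢ <;> omega
  rw [h2, Fin.ext h1]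

/-- Blocks of constant length. -/
theorem flatMap_get {α β : Type} (f : α → List β) (B : ℕ) (hf : ∀ x, (f x).length = B) :
    ∀ (l : List α) (t i : ℕ), i < B →
      (l.flatMap f)[t * B + i]? = (l[t]?).bind fun x => (f x)[i]?
  | [], t, i, _ => by simp
  | x :: l, 0, i, hi => by
    rw [List.flatMap_cons, List.getElem?_append_left (by rw [hf]; omega)]
    simp
  | x :: l, t + 1, i, hi => by
    rw [List.flatMap_cons, List.getElem?_append_right (by rw [hf, Nat.succ_mul]; omega), hf,
      List.getElem?_cons_succ, ← flatMap_get f B hf l t i hi]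
    congr 1
    rw [Nat.succ_mul]
    omega

theorem clause_len {n : ℕ} (c : Fin 3 → Lit n) :
    ((List.finRange 3).flatMap fun p =>
      (List.range (2 * n)).map fun i => decide (i = litNum (c p))).length = 3 * (2 * n) := by
  simp [List.length_flatMap]
  omega

theorem encCNF_length (φ : CNF) : (encCNF φ).length = φ.1 + 1 + 6 * φ.1 * φ.2.length := by
  unfold encCNF
  rw [List.length_append, List.length_replicate, List.length_cons, List.length_flatMap]
  have : (φ.2.map fun c => ((List.finRange 3).flatMap fun p =>
      (List.range (2 * φ.1)).map fun i => decide (i = litNum (c p))).length) =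
      φ.2.map fun _ => 3 * (2 * φ.1) := List.map_congr_left fun c _ => clause_len c
  rw [this]
  simp
  ring

theorem enc_lt (φ : CNF) {i : ℕ} (h : i < φ.1) : (encCNF φ)[i]? = some true := by
  unfold encCNF
  rw [List.getElem?_append_left (by simpa using h)]
  simp [h]

theorem enc_n (φ : CNF) : (encCNF φ)[φ.1]? = some false := by
  unfold encCNF
  rw [List.getElem?_append_right (by simp)]
  simp

theorem enc_bit (φ : CNF) {t p i : ℕ} (hp : p < 3) (hi : i < 2 * φ.1) :
    (encCNF φ)[φ.1 + 1 + (3 * t + p) * (2 * φ.1) + i]? =
      (φ.2[t]?).map fun c => decide (i = litNum (c ⟨p, hp⟩)) := by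
  unfold encCNF
  have e : φ.1 + 1 + (3 * t + p) * (2 * φ.1) + i =
      (List.replicate φ.1 true).length + (1 + (t * (3 * (2 * φ.1)) + (p * (2 * φ.1) + i))) := by
    rw [List.length_replicate]; ring
  rw [e, List.getElem?_append_right (by omega), Nat.add_sub_cancel_left, Nat.add_comm 1,
    List.getElem?_cons_succ, flatMap_get _ _ clause_len _ _ _ (by
      calc p * (2 * φ.1) + i < p * (2 * φ.1) + 2 * φ.1 := by omega
        _ = (p + 1) * (2 * φ.1) := by ring
        _ ≤ 3 * (2 * φ.1) := Nat.mul_le_mul_right _ hp)]
  rcases φ.2[t]? with _ | c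
  · rfl
  · simp only [Option.bind_some, Option.map_some]
    rw [flatMap_get _ (2 * φ.1) (by simp) _ _ _ hi]
    have : (List.finRange 3)[p]? = some ⟨p, hp⟩ := by
      rw [List.getElem?_eq_getElem (by simpa using hp)]
      simp
    rw [this]
    simp [hi]

theorem encCNF_injective : Function.Injective encCNF := by
  intro φ ψ h
  have hn : φ.1 = ψ.1 := by
    rcases lt_trichotomy φ.1 ψ.1 with h1 | h1 | h1
    · have h2 := enc_lt ψ h1
      rw [← h, enc_n] at h2
      simp at h2
    · exact h1
    · have h2 := enc_lt φ h1
      rw [h, enc_n] at h2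
      simp at h2
  obtain ⟨n, φ⟩ := φ
  obtain ⟨n', ψ⟩ := ψ
  simp only at hn
  subst hn
  congr 1
  rcases Nat.eq_zero_or_pos n with hn | hn
  · subst hn
    rcases φ with _ | ⟨c, φ⟩
    · rcases ψ with _ | ⟨c, ψ⟩
      · rfl
      · exact (c 0).1.elim0
    · exact (c 0).1.elim0
  · have hl : φ.length = ψ.length := by
      have h1 := encCNF_length ⟨n, φ⟩
      rw [h, encCNF_length] at h1
      simp only at h1
      have h2 : 6 * n * ψ.length = 6 * n * φ.length := by omega
      exact (Nat.eq_of_mul_eq_mul_left (by omega) h2).symm
    apply List.ext_getElem? 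
    intro t
    rcases h1 : φ[t]? with _ | c
    · rw [List.getElem?_eq_none_iff] at h1
      symm
      rw [List.getElem?_eq_none_iff]
      omega
    · rcases h2 : ψ[t]? with _ | c'
      · rw [List.getElem?_eq_none_iff] at h2
        rw [List.getElem?_eq_none (by omega)] at h1
        exact absurd h1 (by simp)
      · congr 1
        funext p
        have h3 := enc_bit ⟨n, φ⟩ (t := t) p.isLt (litNum_lt (c p))
        rw [h, enc_bit ⟨n, ψ⟩ p.isLt (litNum_lt (c p))] at h3
        simp only [h1, h2, Option.map_some, Option.some.injEq, Fin.eta, decide_true] at h3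
        exact litNum_inj (by simpa using h3)

theorem encGraph_length (G : FinGraph) : (encGraph G).length = G.1 * G.1 := by
  simp [encGraph]

theorem encGraph_injective : Function.Injective encGraph := by
  intro G H h
  have h1 : G.1 = H.1 := by
    have := congrArg List.length h
    rw [encGraph_length, encGraph_length] at this
    exact Nat.mul_self_inj.1 this
  obtain ⟨N, G⟩ := G
  obtain ⟨N', H⟩ := H
  simp only at h1
  subst h1
  congr 1
  ext a b
  have hN : 0 < N := lt_of_le_of_lt (Nat.zero_le _) a.isLt
  have hlt : a.val * N + b.val < N * N := by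
    calc a.val * N + b.val < a.val * N + N := by have := b.isLt; omega
      _ = (a.val + 1) * N := by ring
      _ ≤ N * N := Nat.mul_le_mul_right _ a.isLt
  have key : ∀ K : SimpleGraph (Fin N), (encGraph ⟨N, K⟩)[a.val * N + b.val]? = some true ↔
      K.Adj a b := by
    intro K
    unfold encGraph
    simp only [List.getElem?_map, List.getElem?_range hlt, Option.map_some, Option.some.injEq,
      decide_eq_true_eq]
    constructor
    · rintro ⟨a', b', h1, h2⟩
      have h3 : a.val = a'.val := by
        have := congrArg (· / N) h1
        simp only [Nat.mul_comm _ N, Nat.mul_add_div hN, Nat.div_eq_of_lt b.isLt,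
          Nat.div_eq_of_lt b'.isLt, Nat.add_zero] at this
        exact this
      have h4 : b.val = b'.val := by
        rw [h3] at h1
        omega
      rw [Fin.ext h3, Fin.ext h4]
      exact h2
    · intro h
      exact ⟨a, b, rfl, h⟩
  rw [← key, ← key, h]

end Pool.Agent.Helper92.MC
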