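import Pool.Agent.Helper92.MC.Adj

/-!
# Matching Cut: the bounded formulas
-/

set_option autoImplicit false
set_option linter.unusedSimpArgs false

namespace Pool.Agent.Helper92.MC

open Pool.Agent.CHK

namespace F

local instance : Add Tm := ⟨Tm.add⟩
local instance : Mul Tm := ⟨Tm.mul⟩
local instance (n : ℕ) : OfNat Tm n := ⟨Tm.const n⟩

theorem ev_add {n : ℕ} {v : ℕ → ℕ} (a b : Tm) : (a + b).eval n v = a.eval n v + b.eval n v := rfl
theorem ev_mul {n : ℕ} {v : ℕ → ℕ} (a b : Tm) : (a * b).eval n v = a.eval n v * b.eval n v := rfl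
theorem ev_0 {n : ℕ} {v : ℕ → ℕ} : (0 : Tm).eval n v = 0 := rfl
theorem ev_1 {n : ℕ} {v : ℕ → ℕ} : (1 : Tm).eval n v = 1 := rfl
theorem ev_2 {n : ℕ} {v : ℕ → ℕ} : (2 : Tm).eval n v = 2 := rfl
theorem ev_3 {n : ℕ} {v : ℕ → ℕ} : (3 : Tm).eval n v = 3 := rfl
theorem ev_4 {n : ℕ} {v : ℕ → ℕ} : (4 : Tm).eval n v = 4 := rfl
theorem ev_6 {n : ℕ} {v : ℕ → ℕ} : (6 : Tm).eval n v = 6 := rfl
theorem ev_7 {n : ℕ} {v : ℕ → ℕ} : (7 : Tm).eval n v = 7 := rfl
theorem ev_8 {n : ℕ} {v : ℕ → ℕ} : (8 : Tm).eval n v = 8 := rfl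
theorem ev_16 {n : ℕ} {v : ℕ → ℕ} : (16 : Tm).eval n v = 16 := rfl
theorem ev_10000 {n : ℕ} {v : ℕ → ℕ} : (10000 : Tm).eval n v = 10000 := rfl

/-- variables -/
abbrev X (k : ℕ) : Tm := .var k

/-- number of variables -/
abbrev n' : Tm := .var 1
/-- number of clauses -/
abbrev m' : Tm := .var 2

/-- `4 k` -/
def T8 : Tm := 16 * n' + 4 * m' + 8
/-- `4 k - 1` -/
def T7 : Tm := 16 * n' + 4 * m' + 7

/-- `EntN`, with `j = X 5`, `r = X 6`, `Y = X 8` -/
def fEnt : Fm :=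
  ((Fm.lt (X 5) (2 * n' + 2)).and
    (((Fm.eq (X 6) 0).and (Fm.eq (X 8) 0)).or (((Fm.eq (X 6) 1).and (Fm.eq (X 8) 1)).or
      ((Fm.le 2 (X 6)).and (Fm.eq (X 8) (X 5)))))).or
  ((Fm.ex 9 n'
    (((Fm.eq (X 5) (2 * n' + 2 + 2 * X 9)).and
      (((Fm.eq (X 6) 0).and (Fm.eq (X 8) (2 + 2 * X 9))).or
        (((Fm.eq (X 6) 1).and (Fm.eq (X 8) (3 + 2 * X 9))).or
          ((Fm.le 2 (X 6)).and (Fm.eq (X 8) 1))))).or
    ((Fm.eq (X 5) (2 * n' + 3 + 2 * X 9)).and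
      (((Fm.eq (X 6) 0).and (Fm.eq (X 8) (2 + 2 * X 9))).or
        (((Fm.eq (X 6) 1).and (Fm.eq (X 8) (3 + 2 * X 9))).or
          ((Fm.le 2 (X 6)).and (Fm.eq (X 8) 0))))))).or
  (Fm.ex 9 m' ((Fm.eq (X 5) (4 * n' + 2 + X 9)).and
    (((Fm.eq (X 6) 3).and (Fm.eq (X 8) 1)).or
    (((Fm.eq (X 6) 2).and (Fm.ex 10 (2 * n') ((Fm.eq (X 8) (2 + X 10)).and
      (Fm.inp (n' + 1 + (3 * X 9 + 2) * (2 * n') + X 10))))).or
    ((Fm.lt (X 6) 2).and (Fm.ex 10 n'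
      (((Fm.eq (X 8) (2 + 2 * X 10)).and
        (Fm.inp (n' + 1 + (3 * X 9 + X 6) * (2 * n') + (2 * X 10 + 1)))).or
      ((Fm.eq (X 8) (3 + 2 * X 10)).and
        (Fm.inp (n' + 1 + (3 * X 9 + X 6) * (2 * n') + 2 * X 10)))))))))))

theorem holds_fEnt {w : List Bool} {v : ℕ → ℕ} : fEnt.Holds w v ↔
    EntN (v 1) (v 2) (fun x => w[x]? = some true) (v 5) (v 6) (v 8) := by
  unfold fEnt EntN
  simp only [X, n', m', Fm.holds_and, Fm.holds_or, Fm.holds_ex, Fm.holds_le, Fm.holds_lt,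
    Fm.holds_eq, Fm.holds_inp, ev_add, ev_mul, ev_0, ev_1, ev_2, ev_3, ev_4, ev_6, ev_7, ev_8, ev_16, ev_10000, Tm.eval_var]
  simp

/-- `EdN`, with `a = X a`, `b = X b` -/
def fEd (a b : ℕ) : Fm :=
  (Fm.ex 5 (2 * n' + 2) (Fm.ex 6 T7
    (((Fm.eq (X a) (X 5 * T8 + X 6)).and (Fm.eq (X b) (X 5 * T8 + (X 6 + 1)))).or
     ((Fm.eq (X a) ((2 * n' + 2) * T8 + (X 5 * T7 + X 6))).and
       ((Fm.eq (X b) (X 5 * T8 + X 6)).or (Fm.eq (X b) (X 5 * T8 + (X 6 + 1)))))))).or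
  (Fm.ex 5 (4 * n' + 2 + m')
    ((Fm.ex 6 3 (Fm.ex 7 3
      ((Fm.eq (X a) ((2 * n' + 2) * T8 + ((2 * n' + 2) * T7 + (3 * X 5 + X 6)))).and
      (Fm.eq (X b) ((2 * n' + 2) * T8 + ((2 * n' + 2) * T7 + (3 * X 5 + X 7))))))).or
    (Fm.ex 6 4 (Fm.ex 7 2 (Fm.ex 8 (2 * n' + 2)
      (((Fm.eq (X 6) (2 * X 7)).or (Fm.eq (X 6) (2 * X 7 + 1))).and
      ((Fm.eq (X a) ((2 * n' + 2) * T8 + ((2 * n' + 2) * T7 + (3 * X 5 + X 7)))).and
      ((Fm.eq (X b) (X 8 * T8 + (4 * X 5 + X 6))).and fEnt))))))))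

theorem holds_fEd {w : List Bool} {v : ℕ → ℕ} {a b : ℕ} (h : a = 3 ∧ b = 4 ∨ a = 4 ∧ b = 3) :
    (fEd a b).Holds w v ↔
      EdN (v 1) (v 2) (fun x => w[x]? = some true) (v a) (v b) := by
  rcases h with ⟨rfl, rfl⟩ | ⟨rfl, rfl⟩
  all_goals
    unfold fEd EdN
    simp only [X, n', m', T7, T8, Fm.holds_and, Fm.holds_or, Fm.holds_ex, Fm.holds_le, Fm.holds_lt,
      Fm.holds_eq, Fm.holds_inp, holds_fEnt, ev_add, ev_mul, ev_0, ev_1, ev_2, ev_3, ev_4, ev_6, ev_7, ev_8, ev_16, ev_10000, Tm.eval_var]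
    simp

/-- the numbers of variables and of clauses are `X 1`, `X 2` -/
def fDec (f : Fm) : Fm :=
  Fm.ex 1 Tm.len (((Fm.all 5 (X 1) (Fm.inp (X 5))).and (Fm.neg (Fm.inp (X 1)))).and
    (Fm.ex 2 Tm.len (((Fm.eq Tm.len (X 1 + 1 + 6 * X 1 * X 2)).and
      ((Fm.eq (X 1) 0).imp (Fm.eq (X 2) 0))).and f)))

theorem holds_fDec (f : Fm) (φ : CNF) (v : ℕ → ℕ) : (fDec f).Holds (encCNF φ) v ↔
    f.Holds (encCNF φ) (Function.update (Function.update v 1 φ.1) 2 φ.2.length) := by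
  unfold fDec
  simp only [X, Fm.holds_and, Fm.holds_all, Fm.holds_neg, Fm.holds_ex, Fm.holds_imp,
    Fm.holds_eq, Fm.holds_inp, ev_add, ev_mul, ev_0, ev_1, ev_2, ev_3, ev_4, ev_6, ev_7, ev_8, ev_16, ev_10000, Tm.eval_var, Tm.eval_len]
  have hlen := encCNF_length φ
  have h0 : φ.1 = 0 → φ.2.length = 0 := by
    obtain ⟨n, φ⟩ := φ
    intro h
    simp only at h
    subst h
    rcases φ with _ | ⟨c, φ⟩
    · rfl
    · exact (c 0).1.elim0
  constructor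
  · rintro ⟨a, ha, ⟨h1, h2⟩, b, hb, ⟨h3, h4⟩, h5⟩
    simp only [Function.update_self, ne_eq, OfNat.one_ne_ofNat, not_false_eq_true,
      Function.update_of_ne, OfNat.ofNat_ne_one, show (5 : ℕ) ≠ 1 by omega,
      show (1 : ℕ) ≠ 5 by omega, show (1 : ℕ) ≠ 2 by omega] at h1 h2 h3 h4
    have ea : a = φ.1 := by
      rcases lt_trichotomy a φ.1 with h | h | h
      · exact absurd (enc_lt φ h) h2
      · exact h
      · have := h1 φ.1 h
        rw [enc_n] at this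
        simp at this
    subst ea
    have eb : b = φ.2.length := by
      rcases Nat.eq_zero_or_pos φ.1 with h | h
      · rw [h4 h, h0 h]
      · have h6 : 6 * φ.1 * b = 6 * φ.1 * φ.2.length := by omega
        exact Nat.eq_of_mul_eq_mul_left (by omega) h6
    subst eb
    exact h5
  · intro h
    refine ⟨φ.1, by omega, ⟨?_, ?_⟩, φ.2.length, ?_, ⟨?_, ?_⟩, h⟩
    · intro i hi
      simp only [Function.update_self] at hi ⊢
      exact enc_lt φ hi
    · simp only [Function.update_self]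
      rw [enc_n]
      simp
    · rcases Nat.eq_zero_or_pos φ.1 with h1 | h1
      · rw [h0 h1, hlen]
        omega
      · rw [hlen]
        nlinarith
    · simp [hlen]
    · simpa using h0

/-- the number of vertices -/
def NT : Tm := (2 * n' + 2) * T8 + (2 * n' + 2) * T7 + 3 * (4 * n' + 2 + m')

theorem ev_NT {w : ℕ} {v : ℕ → ℕ} : NT.eval w v = NN (v 1) (v 2) := by
  unfold NT T7 T8 NN kk
  simp only [ev_add, ev_mul, ev_0, ev_1, ev_2, ev_3, ev_4, ev_6, ev_7, ev_8, ev_16, ev_10000, Tm.eval_var, n', m']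
  have e1 : 4 * (4 * v 1 + 2 + v 2) = 16 * v 1 + 4 * v 2 + 8 := by ring
  rw [e1]
  rfl

/-- letters of the output -/
def al : Fm := fDec (Fm.lt (X 0) (NT * NT))

/-- values of the letters of the output -/
def be : Fm := fDec (Fm.ex 3 NT (Fm.ex 4 NT ((Fm.eq (X 0) (X 3 * NT + X 4)).and
  ((Fm.ne (X 3) (X 4)).and ((fEd 3 4).or (fEd 4 3))))))

/-- bound for the length of the output -/
def TT : Tm := 10000 * (Tm.len * Tm.len * (Tm.len * Tm.len))

theorem holds_al (φ : CNF) (i : ℕ) : al.Holds (encCNF φ) (Function.update 0 0 i) ↔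
    i < NN φ.1 φ.2.length * NN φ.1 φ.2.length := by
  unfold al
  rw [holds_fDec]
  simp only [Fm.holds_lt, ev_mul, ev_NT, X, Tm.eval_var]
  simp

theorem holds_be (φ : CNF) (i : ℕ) : be.Holds (encCNF φ) (Function.update 0 0 i) ↔
    ∃ a, a < NN φ.1 φ.2.length ∧ ∃ b, b < NN φ.1 φ.2.length ∧
      i = a * NN φ.1 φ.2.length + b ∧ a ≠ b ∧
      (EdN φ.1 φ.2.length (fun x => (encCNF φ)[x]? = some true) a b ∨
       EdN φ.1 φ.2.length (fun x => (encCNF φ)[x]? = some true) b a) := by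
  unfold be
  rw [holds_fDec]
  simp only [Fm.holds_ex, Fm.holds_and, Fm.holds_or, Fm.holds_eq, Fm.holds_ne, ev_add, ev_mul,
    ev_NT, X, Tm.eval_var, holds_fEd (Or.inl ⟨rfl, rfl⟩), holds_fEd (Or.inr ⟨rfl, rfl⟩)]
  simp

theorem NN_le (φ : CNF) : NN φ.1 φ.2.length * NN φ.1 φ.2.length ≤
    TT.eval (encCNF φ).length 0 := by
  unfold TT
  simp only [ev_mul, ev_0, ev_1, ev_2, ev_3, ev_4, ev_6, ev_7, ev_8, ev_16, ev_10000, Tm.eval_len]
  have hlen := encCNF_length φ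
  set L := (encCNF φ).length with hL
  have h0 : φ.1 = 0 → φ.2.length = 0 := by
    obtain ⟨n, φ⟩ := φ
    intro h
    simp only at h
    subst h
    rcases φ with _ | ⟨c, φ⟩
    · rfl
    · exact (c 0).1.elim0
  have h1 : φ.1 + 1 ≤ L := by omega
  have h2 : φ.2.length ≤ L := by
    rcases Nat.eq_zero_or_pos φ.1 with h | h
    · rw [h0 h]; omega
    · nlinarith
  have h3 : kk φ.1 φ.2.length ≤ 5 * L := by unfold kk; omega
  have h4 : NN φ.1 φ.2.length ≤ 100 * (L * L) := by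
    unfold NN
    have h5 : (2 * φ.1 + 2) * (4 * kk φ.1 φ.2.length) ≤ (2 * L) * (4 * (5 * L)) :=
      Nat.mul_le_mul (by omega) (by omega)
    have h6 : (2 * φ.1 + 2) * (4 * kk φ.1 φ.2.length - 1) ≤ (2 * L) * (4 * (5 * L)) :=
      Nat.mul_le_mul (by omega) (by omega)
    have h7 : 3 * kk φ.1 φ.2.length ≤ 15 * (L * L) := by nlinarith
    nlinarith
  calc NN φ.1 φ.2.length * NN φ.1 φ.2.length ≤ (100 * (L * L)) * (100 * (L * L)) :=
        Nat.mul_le_mul h4 h4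
    _ = 10000 * (L * L * (L * L)) := by ring

theorem range_filter {β : Type} (f : ℕ → β) (P : ℕ → Prop) [DecidablePred P] (a b : ℕ) (h : a ≤ b)
    (hP : ∀ i, P i ↔ i < a) :
    (List.range b).flatMap (fun i => if P i then [f i] else []) = (List.range a).map f := by
  obtain ⟨c, rfl⟩ := Nat.exists_eq_add_of_le h
  rw [List.range_add, List.flatMap_append]
  have h1 : (List.range a).flatMap (fun i => if P i then [f i] else []) =
      (List.range a).map f := by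
    rw [← List.flatMap_pure_eq_map]
    apply List.flatMap_congr
    intro i hi
    rw [List.mem_range] at hi
    rw [if_pos ((hP i).2 hi)]
    rfl
  have h2 : ((List.range c).map fun x => a + x).flatMap (fun i => if P i then [f i] else []) =
      [] := by
    rw [List.flatMap_eq_nil_iff]
    intro i hi
    rw [List.mem_map] at hi
    obtain ⟨x, -, rfl⟩ := hi
    rw [if_neg (by rw [hP]; omega)]
  rw [h1, h2, List.append_nil]

theorem bfm_eq (φ : CNF) : bfmF TT al be (encCNF φ) = encGraph (redG φ) := by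
  classical
  unfold bfmF encGraph
  rw [range_filter _ _ _ _ (NN_le φ) (holds_al φ)]
  apply List.map_congr_left
  intro i _
  rw [decide_eq_decide, holds_be, ← redG_bit]

theorem redG_poly : Nonempty (Turing.TM2ComputableInPolyTime encCNF encGraph redG) :=
  bfm_enc _ _ _ TT al be bfm_eq

end F

end Pool.Agent.Helper92.MC
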