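import Pool.Agent.Helper92.MC.Code

/-!
# Matching Cut: the adjacency of the graph of a formula in terms of numbers
-/

set_option autoImplicit false

open SimpleGraph

namespace Pool.Agent.Helper92.MC

open Vert

theorem bT {n : ℕ} : blobNum (Sum.inl true : Blob n) = 0 := rfl
theorem bF {n : ℕ} : blobNum (Sum.inl false : Blob n) = 1 := rfl
theorem bL {n : ℕ} (l : Lit n) : blobNum (Sum.inr l : Blob n) = 2 + litNum l := rfl

/-- entry number `r` of the gadget number `j`, in terms of the letters of the code -/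
def EntN (n m : ℕ) (bit : ℕ → Prop) (j r Y : ℕ) : Prop :=
  (j < 2 * n + 2 ∧ ((r = 0 ∧ Y = 0) ∨ (r = 1 ∧ Y = 1) ∨ (2 ≤ r ∧ Y = j))) ∨
  (∃ v, v < n ∧
    ((j = 2 * n + 2 + 2 * v ∧
      ((r = 0 ∧ Y = 2 + 2 * v) ∨ (r = 1 ∧ Y = 3 + 2 * v) ∨ (2 ≤ r ∧ Y = 1))) ∨
    (j = 2 * n + 3 + 2 * v ∧
      ((r = 0 ∧ Y = 2 + 2 * v) ∨ (r = 1 ∧ Y = 3 + 2 * v) ∨ (2 ≤ r ∧ Y = 0))))) ∨
  (∃ t, t < m ∧ j = 4 * n + 2 + t ∧
    ((r = 3 ∧ Y = 1) ∨
     (r = 2 ∧ ∃ u, u < 2 * n ∧ Y = 2 + u ∧ bit (n + 1 + (3 * t + 2) * (2 * n) + u)) ∨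
     (r < 2 ∧ ∃ v, v < n ∧
      ((Y = 2 + 2 * v ∧ bit (n + 1 + (3 * t + r) * (2 * n) + (2 * v + 1))) ∨
       (Y = 3 + 2 * v ∧ bit (n + 1 + (3 * t + r) * (2 * n) + 2 * v))))))

theorem gad_a {n : ℕ} (φ : Formula n) {j : ℕ} (hj : j < 2 * n + 2) :
    ∃ X : Blob n, blobNum X = j ∧
      (gadgets φ)[j]? = some ![Sum.inl true, Sum.inl false, X, X] := by
  obtain ⟨X, hX⟩ := blobNum_surj hj
  refine ⟨X, hX, ?_⟩
  unfold gadgets
  rw [List.append_assoc, List.getElem?_append_left (by
    simp [List.length_flatMap]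
    omega), List.getElem?_map]
  suffices h : ([Sum.inl true, Sum.inl false] ++ (List.finRange n).flatMap fun v =>
      [Sum.inr (v, true), Sum.inr (v, false)])[j]? = some X by rw [h]; rfl
  subst hX
  rcases X with b | ⟨v, s⟩
  · rcases b <;> rfl
  · rw [List.getElem?_append_right (by simp [blobNum])]
    have h1 := fun (i : ℕ) (hi : i < 2) => flatMap_get (fun v : Fin n =>
      [(Sum.inr (v, true) : Blob n), Sum.inr (v, false)]) 2 (fun _ => rfl) (List.finRange n) v.val i hi
    have h2 : (List.finRange n)[v.val]? = some v := by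
      rw [List.getElem?_eq_getElem (by simp)]
      simp
    simp only [h2, Option.bind_some] at h1
    rcases s
    · have := h1 1 (by omega)
      have e : blobNum (Sum.inr (v, false) : Blob n) - ([Sum.inl true, Sum.inl false] : List (Blob n)).length =
          v.val * 2 + 1 := by
        simp [blobNum, litNum]
        omega
      rw [e, this]
      rfl
    · have := h1 0 (by omega)
      have e : blobNum (Sum.inr (v, true) : Blob n) - ([Sum.inl true, Sum.inl false] : List (Blob n)).length =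
          v.val * 2 + 0 := by
        simp [blobNum, litNum]
        omega
      rw [e, this]
      rfl

theorem gad_b {n : ℕ} (φ : Formula n) (v : Fin n) :
    (gadgets φ)[2 * n + 2 + 2 * v.val]? =
      some ![Sum.inr (v, true), Sum.inr (v, false), Sum.inl false, Sum.inl false] ∧
    (gadgets φ)[2 * n + 3 + 2 * v.val]? =
      some ![Sum.inr (v, true), Sum.inr (v, false), Sum.inl true, Sum.inl true] := by
  have h1 := fun (i : ℕ) (hi : i < 2) => flatMap_get (fun v : Fin n =>
      [![(Sum.inr (v, true) : Blob n), Sum.inr (v, false), Sum.inl false, Sum.inl false],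
        ![Sum.inr (v, true), Sum.inr (v, false), Sum.inl true, Sum.inl true]])
      2 (fun _ => rfl) (List.finRange n) v.val i hi
  have h2 : (List.finRange n)[v.val]? = some v := by
    rw [List.getElem?_eq_getElem (by simp)]
    simp
  simp only [h2, Option.bind_some] at h1
  have hl : (([Sum.inl true, Sum.inl false] ++ (List.finRange n).flatMap fun v =>
      [(Sum.inr (v, true) : Blob n), Sum.inr (v, false)]).map
    (fun X => ![Sum.inl true, Sum.inl false, X, X])).length = 2 * n + 2 := by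
    simp [List.length_flatMap]
    omega
  have hv := v.isLt
  unfold gadgets
  rw [List.append_assoc]
  constructor
  · rw [List.getElem?_append_right (by rw [hl]; omega), hl, List.getElem?_append_left (by
      simp [List.length_flatMap]
      omega)]
    rw [show 2 * n + 2 + 2 * v.val - (2 * n + 2) = v.val * 2 + 0 by omega, h1 0 (by omega)]
    rfl
  · rw [List.getElem?_append_right (by rw [hl]; omega), hl, List.getElem?_append_left (by
      simp [List.length_flatMap]
      omega)]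
    rw [show 2 * n + 3 + 2 * v.val - (2 * n + 2) = v.val * 2 + 1 by omega, h1 1 (by omega)]
    rfl

theorem gad_c {n : ℕ} (φ : Formula n) (t : ℕ) :
    (gadgets φ)[4 * n + 2 + t]? = (φ[t]?).map fun c =>
      ![Sum.inr (Lit.neg (c 0)), Sum.inr (Lit.neg (c 1)), Sum.inr (c 2), Sum.inl false] := by
  unfold gadgets
  rw [List.getElem?_append_right (by
    simp [List.length_flatMap]
    omega), List.getElem?_map]
  congr 2
  simp [List.length_flatMap]
  omega

theorem litNum_neg {n : ℕ} (l : Lit n) (v : ℕ) :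
    (litNum (Lit.neg l) = 2 * v ↔ litNum l = 2 * v + 1) ∧
    (litNum (Lit.neg l) = 2 * v + 1 ↔ litNum l = 2 * v) := by
  obtain ⟨x, s⟩ := l
  rcases s <;> simp [Lit.neg, litNum] <;> omega

theorem ent_iff {n : ℕ} (φ : Formula n) (j : ℕ) (hj : j < (gadgets φ).length) (r : Fin 4)
    (Y : Blob n) : (gadgets φ)[j] r = Y ↔
      EntN n φ.length (fun x => (encCNF ⟨n, φ⟩)[x]? = some true) j r.val (blobNum Y) := by
  have hk := gadgets_length φ
  have hbit : ∀ t (ht : t < φ.length) p (hp : p < 3) i, i < 2 * n →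
      ((encCNF ⟨n, φ⟩)[n + 1 + (3 * t + p) * (2 * n) + i]? = some true ↔
        litNum (φ[t] ⟨p, hp⟩) = i) := by
    intro t ht p hp i hi
    rw [enc_bit ⟨n, φ⟩ hp hi]
    simp only [List.getElem?_eq_getElem ht, Option.map_some, Option.some.injEq, decide_eq_true_eq]
    exact eq_comm
  have hinj : ∀ X : Blob n, X = Y ↔ blobNum Y = blobNum X :=
    fun X => ⟨fun h => by rw [h], fun h => (blobNum_inj h).symm⟩
  have hget : ∀ g, (gadgets φ)[j]? = some g → (gadgets φ)[j] = g := by
    intro g hg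
    rw [List.getElem?_eq_getElem hj] at hg
    simpa using hg
  unfold EntN
  rcases lt_or_ge j (2 * n + 2) with h1 | h1
  · obtain ⟨X, hX, hg⟩ := gad_a φ h1
    rw [hget _ hg]
    have e2 : ¬ ∃ v, v < n ∧
        ((j = 2 * n + 2 + 2 * v ∧ ((r.val = 0 ∧ blobNum Y = 2 + 2 * v) ∨
          (r.val = 1 ∧ blobNum Y = 3 + 2 * v) ∨ (2 ≤ r.val ∧ blobNum Y = 1))) ∨
        (j = 2 * n + 3 + 2 * v ∧ ((r.val = 0 ∧ blobNum Y = 2 + 2 * v) ∨
          (r.val = 1 ∧ blobNum Y = 3 + 2 * v) ∨ (2 ≤ r.val ∧ blobNum Y = 0)))) := by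
      rintro ⟨v, hv, ⟨h, -⟩ | ⟨h, -⟩⟩ <;> omega
    rw [or_iff_right (a := ∃ v, _) e2]
    have e3 : ∀ P : ℕ → Prop, ¬ ∃ t, t < φ.length ∧ j = 4 * n + 2 + t ∧ P t := by
      rintro P ⟨t, ht, h, -⟩
      omega
    rw [or_iff_left (e3 _)]
    subst hX
    fin_cases r
    · simp [hinj, bT, h1]
    · simp [hinj, bF, h1]
    · simp [hinj, h1]
    · simp [hinj, h1]
  rcases lt_or_ge j (4 * n + 2) with h2 | h2
  · rw [or_iff_right (a := j < 2 * n + 2 ∧ _) (by rintro ⟨h, -⟩; omega)]
    have e3 : ∀ P : ℕ → Prop, ¬ ∃ t, t < φ.length ∧ j = 4 * n + 2 + t ∧ P t := by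
      rintro P ⟨t, ht, h, -⟩
      omega
    rw [or_iff_left (e3 _)]
    obtain ⟨v, hv⟩ : ∃ v : Fin n, v.val = (j - (2 * n + 2)) / 2 := ⟨⟨_, by omega⟩, rfl⟩
    have hvn := v.isLt
    rcases Nat.even_or_odd' (j - (2 * n + 2)) with ⟨c, hc | hc⟩
    · have hj' : j = 2 * n + 2 + 2 * v.val := by omega
      rw [hget _ (by rw [hj']; exact (gad_b φ v).1)]
      constructor
      · intro h
        refine ⟨v.val, hvn, Or.inl ⟨hj', ?_⟩⟩
        rw [hinj] at h
        rw [h]
        fin_cases r <;> simp [bT, bF, bL, litNum]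
        omega
      · rintro ⟨v', hv', ⟨h3, h4⟩ | ⟨h3, h4⟩⟩
        · have h5 : v' = v.val := by omega
          subst h5
          rw [hinj]
          fin_cases r <;> simp [bT, bF, bL, litNum] at h4 ⊢ <;> omega
        · omega
    · have hj' : j = 2 * n + 3 + 2 * v.val := by omega
      rw [hget _ (by rw [hj']; exact (gad_b φ v).2)]
      constructor
      · intro h
        refine ⟨v.val, hvn, Or.inr ⟨hj', ?_⟩⟩
        rw [hinj] at h
        rw [h]
        fin_cases r <;> simp [bT, bF, bL, litNum]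
        omega
      · rintro ⟨v', hv', ⟨h3, h4⟩ | ⟨h3, h4⟩⟩
        · omega
        · have h5 : v' = v.val := by omega
          subst h5
          rw [hinj]
          fin_cases r <;> simp [bT, bF, bL, litNum] at h4 ⊢ <;> omega
  · rw [or_iff_right (a := j < 2 * n + 2 ∧ _) (by rintro ⟨h, -⟩; omega),
      or_iff_right (a := ∃ v, v < n ∧ _) (by rintro ⟨v, hv, ⟨h, -⟩ | ⟨h, -⟩⟩ <;> omega)]
    obtain ⟨t, rfl⟩ : ∃ t, j = 4 * n + 2 + t := ⟨j - (4 * n + 2), by omega⟩
    have ht : t < φ.length := by omega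
    rw [hget _ (by rw [gad_c, List.getElem?_eq_getElem ht]; rfl)]
    have hc : ∀ p : Fin 3, ∀ i, i < 2 * n →
        ((encCNF ⟨n, φ⟩)[n + 1 + (3 * t + p.val) * (2 * n) + i]? = some true ↔
          litNum (φ[t] p) = i) := fun p i hi => hbit t ht p.val p.isLt i hi
    have key : ∀ p : Fin 3, (Sum.inr (Lit.neg (φ[t] p)) : Blob n) = Y ↔
        ∃ v, v < n ∧ ((blobNum Y = 2 + 2 * v ∧
          (encCNF ⟨n, φ⟩)[n + 1 + (3 * t + p.val) * (2 * n) + (2 * v + 1)]? = some true) ∨
        (blobNum Y = 3 + 2 * v ∧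
          (encCNF ⟨n, φ⟩)[n + 1 + (3 * t + p.val) * (2 * n) + 2 * v]? = some true)) := by
      intro p
      rw [hinj]
      constructor
      · intro h
        have h3 := litNum_lt (Lit.neg (φ[t] p))
        rw [bL] at h
        rcases Nat.even_or_odd' (litNum (Lit.neg (φ[t] p))) with ⟨v, hv | hv⟩
        · refine ⟨v, by omega, Or.inl ⟨by omega, ?_⟩⟩
          rw [hc p _ (by omega)]
          exact (litNum_neg _ v).1.1 hv
        · refine ⟨v, by omega, Or.inr ⟨by omega, ?_⟩⟩
          rw [hc p _ (by omega)]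
          exact (litNum_neg _ v).2.1 hv
      · rintro ⟨v, hv, ⟨h3, h4⟩ | ⟨h3, h4⟩⟩
        · rw [hc p _ (by omega)] at h4
          have := (litNum_neg _ v).1.2 h4
          rw [bL]
          omega
        · rw [hc p _ (by omega)] at h4
          have := (litNum_neg _ v).2.2 h4
          rw [bL]
          omega
    have key2 : (Sum.inr (φ[t] 2) : Blob n) = Y ↔ ∃ u, u < 2 * n ∧ blobNum Y = 2 + u ∧
        (encCNF ⟨n, φ⟩)[n + 1 + (3 * t + 2) * (2 * n) + u]? = some true := by
      rw [hinj]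
      constructor
      · intro h
        have h3 := litNum_lt (φ[t] 2)
        rw [bL] at h
        refine ⟨litNum (φ[t] 2), h3, h, ?_⟩
        exact (hc 2 _ h3).2 rfl
      · rintro ⟨u, hu, h3, h4⟩
        have := (hc 2 u hu).1 h4
        rw [bL]
        omega
    constructor
    · intro h
      refine ⟨t, ht, rfl, ?_⟩
      fin_cases r
      · exact Or.inr (Or.inr ⟨by simp, (key 0).1 h⟩)
      · exact Or.inr (Or.inr ⟨by simp, (key 1).1 h⟩)
      · exact Or.inr (Or.inl ⟨rfl, key2.1 h⟩)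
      · refine Or.inl ⟨rfl, ?_⟩
        have h' : (Sum.inl false : Blob n) = Y := h
        rw [← h']
        rfl
    · rintro ⟨t', ht', h3, h4⟩
      have h5 : t' = t := by omega
      subst h5
      fin_cases r
      · rcases h4 with ⟨h4, -⟩ | ⟨h4, -⟩ | ⟨-, h4⟩
        · simp at h4
        · simp at h4
        · exact (key 0).2 h4
      · rcases h4 with ⟨h4, -⟩ | ⟨h4, -⟩ | ⟨-, h4⟩
        · simp at h4
        · simp at h4
        · exact (key 1).2 h4
      · rcases h4 with ⟨h4, -⟩ | ⟨-, h4⟩ | ⟨h4, -⟩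
        · simp at h4
        · exact key2.2 h4
        · simp at h4
      · rcases h4 with ⟨-, h4⟩ | ⟨h4, -⟩ | ⟨h4, -⟩
        · show (Sum.inl false : Blob n) = Y
          rw [hinj, h4]
          rfl
        · simp at h4
        · simp at h4

end Pool.Agent.Helper92.MC
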